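import Mathlib

set_option autoImplicit false

/-!
Lower bound for the number of smooth integers: for every fixed `j` there is `c > 0` such that
at least `c x` of the integers `1, …, x` are `y`-smooth as soon as `x ^ 2 ≤ y ^ (j + 2)` and `y`
is large.
-/

open Finset

namespace Pool.Agent.H17HN

open Classical in
/-- the `y`-smooth integers in `[1, x]` -/
noncomputable def SM (y x : ℕ) : Finset ℕ :=
  (Finset.Icc 1 x).filter (fun m => ∀ p : ℕ, p.Prime → p ∣ m → p ≤ y)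

theorem mem_SM {y x m : ℕ} :
    m ∈ SM y x ↔ (1 ≤ m ∧ m ≤ x) ∧ ∀ p : ℕ, p.Prime → p ∣ m → p ≤ y := by
  classical
  unfold SM
  rw [Finset.mem_filter, Finset.mem_Icc]

/-- primes `p ≤ y` with `p ^ 2 > y` -/
def win (y : ℕ) : Finset ℕ := (Finset.Icc 1 y).filter (fun p => p.Prime ∧ y < p ^ 2)

theorem mem_win {y p : ℕ} : p ∈ win y ↔ (1 ≤ p ∧ p ≤ y) ∧ p.Prime ∧ y < p ^ 2 := by
  unfold win
  rw [Finset.mem_filter, Finset.mem_Icc]

theorem two_pow_ge (j : ℕ) (hj : 10 ≤ j) : 32 * (j + 1) ≤ 2 ^ j := by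
  induction j, hj using Nat.le_induction with
  | base => norm_num
  | succ k hk ih => rw [pow_succ]; omega

theorem log_four_lt : Real.log 4 < 1.4 := by
  have : Real.log 4 = 2 * Real.log 2 := by
    rw [show (4 : ℝ) = 2 ^ 2 by norm_num, Real.log_pow]; norm_num
  rw [this]
  have := Real.log_two_lt_d9
  linarith

theorem theta_diff (j : ℕ) (hj : 10 ≤ j) :
    (4 : ℝ) ^ j ≤ Chebyshev.theta ((4 ^ (j + 1) : ℕ) : ℝ) - Chebyshev.theta ((4 ^ j : ℕ) : ℝ) := by
  have h1 := Chebyshev.theta_ge (4 ^ (j + 1))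
  have h2 := Chebyshev.theta_le_log4_mul_x (x := ((4 ^ j : ℕ) : ℝ)) (by positivity)
  have hlog4 : Real.log 4 = 2 * Real.log 2 := by
    rw [show (4 : ℝ) = 2 ^ 2 by norm_num, Real.log_pow]; norm_num
  have hl2 : 0.6931471803 < Real.log 2 := Real.log_two_gt_d9
  have hl2' : Real.log 2 < 0.6931471808 := Real.log_two_lt_d9
  have hsq : √(((4 ^ (j + 1) : ℕ)) : ℝ) = 2 ^ (j + 1) := by
    have : (((4 ^ (j + 1) : ℕ)) : ℝ) = (2 ^ (j + 1)) ^ 2 := by
      push_cast
      rw [← pow_mul, show (4 : ℝ) = 2 ^ 2 by norm_num, ← pow_mul, mul_comm]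
    rw [this, Real.sqrt_sq (by positivity)]
  have hlogn : Real.log (((4 ^ (j + 1) : ℕ)) : ℝ) = (j + 1) * Real.log 4 := by
    push_cast
    rw [Real.log_pow]; push_cast; ring
  have hlogn1 : Real.log ((((4 ^ (j + 1) : ℕ)) : ℝ) + 1) ≤ (j + 2) * Real.log 4 := by
    have h4 : (((4 ^ (j + 1) : ℕ)) : ℝ) + 1 ≤ (4 : ℝ) ^ (j + 2) := by
      push_cast
      have : (1 : ℝ) ≤ 4 ^ (j + 1) := one_le_pow₀ (by norm_num)
      rw [pow_succ (4 : ℝ) (j + 1)]
      linarith
    calc Real.log ((((4 ^ (j + 1) : ℕ)) : ℝ) + 1) ≤ Real.log ((4 : ℝ) ^ (j + 2)) :=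
          Real.log_le_log (by positivity) h4
      _ = (j + 2) * Real.log 4 := by rw [Real.log_pow]; push_cast; ring
  have hp := two_pow_ge j hj
  have hpR : (32 : ℝ) * (j + 1) ≤ 2 ^ j := by exact_mod_cast hp
  have h4j : (4 : ℝ) ^ j = 2 ^ j * 2 ^ j := by
    rw [← mul_pow]; norm_num
  have hpos : (0 : ℝ) < 2 ^ j := by positivity
  have h2j : (1024 : ℝ) ≤ 2 ^ j := by
    calc (1024 : ℝ) = 2 ^ 10 := by norm_num
      _ ≤ 2 ^ j := pow_le_pow_right₀ (by norm_num) hj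
  rw [hsq, hlogn] at h1
  have hc1 : (((4 ^ (j + 1) : ℕ)) : ℝ) = 4 * 4 ^ j := by push_cast; rw [pow_succ]; ring
  have hc2 : (((4 ^ j : ℕ)) : ℝ) = 4 ^ j := by push_cast; rfl
  rw [hc1] at h1
  rw [hc2] at h2
  rw [hc1] at hlogn1
  rw [hc1, hc2]
  have hj0 : (0 : ℝ) ≤ j := Nat.cast_nonneg j
  have e1 : (2 : ℝ) * 2 ^ (j + 1) * ((j + 1) * Real.log 4) ≤ 4 * 2 ^ j * ((2 ^ j / 32) * 1.4) := by
    rw [pow_succ]
    have hA : ((j : ℝ) + 1) * Real.log 4 ≤ (2 ^ j / 32) * 1.4 := by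
      apply mul_le_mul (by linarith) (by linarith [log_four_lt]) (by linarith) (by positivity)
    nlinarith
  have e2 : ((j : ℝ) + 2) * Real.log 4 ≤ 2 ^ j := by
    have : ((j : ℝ) + 2) * Real.log 4 ≤ (j + 2) * 1.4 :=
      mul_le_mul_of_nonneg_left log_four_lt.le (by linarith)
    linarith
  have e3 : (2 : ℝ) ^ j ≤ (4 ^ j) / 1024 := by
    rw [h4j, le_div_iff₀ (by norm_num)]
    nlinarith
  have e4 : (4 : ℝ) * 2 ^ j * ((2 ^ j / 32) * 1.4) = 4 ^ j * 0.175 := by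
    rw [h4j]; ring
  have h4pos : (0 : ℝ) < 4 ^ j := by positivity
  nlinarith [h1, h2, hlogn1, e1, e2, e3, e4, mul_pos h4pos (show (0 : ℝ) < Real.log 2 - 0.693 by linarith)]

/-- primes in `(4 ^ j, 4 ^ (j + 1)]` -/
def blk (j : ℕ) : Finset ℕ := Nat.primesLE (4 ^ (j + 1)) \ Nat.primesLE (4 ^ j)

theorem mem_blk {j p : ℕ} : p ∈ blk j ↔ p.Prime ∧ 4 ^ j < p ∧ p ≤ 4 ^ (j + 1) := by
  unfold blk
  rw [Finset.mem_sdiff, Nat.mem_primesLE, Nat.mem_primesLE]
  constructor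
  · rintro ⟨⟨h1, h2⟩, h3⟩
    refine ⟨h2, ?_, h1⟩
    by_contra h
    exact h3 ⟨not_lt.mp h, h2⟩
  · rintro ⟨h1, h2, h3⟩
    exact ⟨⟨h3, h1⟩, fun h => absurd h.1 (not_le.mpr h2)⟩

theorem blk_sum (j : ℕ) (hj : 10 ≤ j) :
    1 / (6 * ((j : ℝ) + 1)) ≤ ∑ p ∈ blk j, (1 / (p : ℝ)) := by
  have h1 := theta_diff j hj
  rw [Chebyshev.theta_eq_sum_primesLE_log, Chebyshev.theta_eq_sum_primesLE_log] at h1
  have hsub : Nat.primesLE (4 ^ j) ⊆ Nat.primesLE (4 ^ (j + 1)) := by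
    intro p hp
    rw [Nat.mem_primesLE] at hp ⊢
    exact ⟨le_trans hp.1 (Nat.pow_le_pow_right (by norm_num) (by omega)), hp.2⟩
  have h2 : ∑ p ∈ blk j, Real.log p =
      (∑ p ∈ Nat.primesLE (4 ^ (j + 1)), Real.log p) - ∑ p ∈ Nat.primesLE (4 ^ j), Real.log p := by
    unfold blk
    rw [← Finset.sum_sdiff hsub]
    ring
  rw [← h2] at h1
  have h3 : ∀ p ∈ blk j, Real.log p / (4 ^ (j + 1) * ((j + 1) * Real.log 4)) ≤ 1 / (p : ℝ) := by
    intro p hp
    rw [mem_blk] at hp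
    have hp0 : (0 : ℝ) < p := by exact_mod_cast hp.1.pos
    have hple : (p : ℝ) ≤ 4 ^ (j + 1) := by exact_mod_cast hp.2.2
    have hlog : Real.log p ≤ (j + 1) * Real.log 4 := by
      calc Real.log p ≤ Real.log ((4 : ℝ) ^ (j + 1)) := Real.log_le_log hp0 hple
        _ = _ := by rw [Real.log_pow]; push_cast; ring
    have hl4 : 0 < Real.log 4 := Real.log_pos (by norm_num)
    rw [div_le_div_iff₀ (by positivity) hp0]
    have hlp : 0 ≤ Real.log p := Real.log_natCast_nonneg p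
    calc Real.log p * p ≤ ((j + 1) * Real.log 4) * 4 ^ (j + 1) := by
          apply mul_le_mul hlog hple hp0.le (by positivity)
      _ = 1 * (4 ^ (j + 1) * ((j + 1) * Real.log 4)) := by ring
  have h4 := Finset.sum_le_sum h3
  rw [← Finset.sum_div] at h4
  refine le_trans ?_ h4
  have hl4 : 0 < Real.log 4 := Real.log_pos (by norm_num)
  rw [div_le_div_iff₀ (by positivity) (by positivity)]
  have h5 : (4 : ℝ) ^ (j + 1) = 4 * 4 ^ j := by rw [pow_succ]; ring
  rw [h5]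
  have h6 := log_four_lt
  have hj0 : (0 : ℝ) < (j : ℝ) + 1 := by positivity
  calc 1 * (4 * 4 ^ j * ((j + 1) * Real.log 4)) ≤ 1 * (4 * 4 ^ j * ((j + 1) * 1.4)) := by gcongr
    _ ≤ 4 ^ j * (6 * ((j : ℝ) + 1)) := by
      have : (0 : ℝ) < 4 ^ j := by positivity
      nlinarith [mul_pos this hj0]
    _ ≤ _ := by gcongr

theorem win_sum (y : ℕ) (hy : 4 ^ 20 ≤ y) : (1 : ℝ) / 18 ≤ ∑ p ∈ win y, (1 / (p : ℝ)) := by
  set J := Nat.log 4 y with hJ
  have hy0 : y ≠ 0 := by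
    have : 0 < 4 ^ 20 := by positivity
    omega
  have hJ1 : 4 ^ J ≤ y := Nat.pow_log_le_self 4 hy0
  have hJ2 : y < 4 ^ (J + 1) := Nat.lt_pow_succ_log_self (by norm_num) y
  have hJ20 : 20 ≤ J := by
    rw [hJ]
    exact (Nat.le_log_iff_pow_le (by norm_num) hy0).mpr hy
  have hsub : (Finset.Ico (J / 2 + 1) J).biUnion blk ⊆ win y := by
    intro p hp
    rw [Finset.mem_biUnion] at hp
    obtain ⟨j, hj, hpj⟩ := hp
    rw [Finset.mem_Ico] at hj
    rw [mem_blk] at hpj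
    rw [mem_win]
    refine ⟨⟨hpj.1.pos, ?_⟩, hpj.1, ?_⟩
    · calc p ≤ 4 ^ (j + 1) := hpj.2.2
        _ ≤ 4 ^ J := Nat.pow_le_pow_right (by norm_num) (by omega)
        _ ≤ y := hJ1
    · calc y < 4 ^ (J + 1) := hJ2
        _ ≤ 4 ^ (j * 2) := Nat.pow_le_pow_right (by norm_num) (by omega)
        _ = (4 ^ j) ^ 2 := by rw [pow_mul]
        _ ≤ p ^ 2 := Nat.pow_le_pow_left hpj.2.1.le 2
  have hdisj : ∀ i ∈ Finset.Ico (J / 2 + 1) J, ∀ j ∈ Finset.Ico (J / 2 + 1) J, i ≠ j →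
      Disjoint (blk i) (blk j) := by
    intro i _ j _ hij
    rw [Finset.disjoint_left]
    intro p hi hj
    rw [mem_blk] at hi hj
    rcases lt_or_gt_of_ne hij with h | h
    · have : 4 ^ (i + 1) ≤ 4 ^ j := Nat.pow_le_pow_right (by norm_num) (by omega)
      omega
    · have : 4 ^ (j + 1) ≤ 4 ^ i := Nat.pow_le_pow_right (by norm_num) (by omega)
      omega
  have h1 : ∑ p ∈ (Finset.Ico (J / 2 + 1) J).biUnion blk, (1 / (p : ℝ)) ≤
      ∑ p ∈ win y, (1 / (p : ℝ)) :=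
    Finset.sum_le_sum_of_subset_of_nonneg hsub (fun p _ _ => by positivity)
  rw [Finset.sum_biUnion hdisj] at h1
  refine le_trans ?_ h1
  have h2 : ∀ j ∈ Finset.Ico (J / 2 + 1) J, 1 / (6 * (J : ℝ)) ≤ ∑ p ∈ blk j, (1 / (p : ℝ)) := by
    intro j hj
    rw [Finset.mem_Ico] at hj
    refine le_trans ?_ (blk_sum j (by omega))
    apply one_div_le_one_div_of_le (by positivity)
    have : (j : ℝ) + 1 ≤ J := by exact_mod_cast hj.2
    linarith
  have h3 := Finset.sum_le_sum h2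
  refine le_trans ?_ h3
  rw [Finset.sum_const, Nat.card_Ico, nsmul_eq_mul]
  have hc : (J : ℝ) / 3 ≤ ((J - (J / 2 + 1) : ℕ) : ℝ) := by
    have : J ≤ 3 * (J - (J / 2 + 1)) := by omega
    have h' : (J : ℝ) ≤ 3 * ((J - (J / 2 + 1) : ℕ) : ℝ) := by exact_mod_cast this
    linarith
  have hJpos : (0 : ℝ) < J := by
    have : (20 : ℝ) ≤ J := by exact_mod_cast hJ20
    linarith
  calc (1 : ℝ) / 18 = (J / 3) * (1 / (6 * J)) := by field_simp; norm_num
    _ ≤ _ := by gcongr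

theorem smooth_step (y x j : ℕ) (hy : 2 ≤ y) (hx : x ^ 2 ≤ y ^ (j + 3)) :
    ∑ p ∈ win y, (SM y (x / p)).card ≤ (j + 3) * (SM y x).card := by
  have h1 : ∀ p ∈ win y, (SM y (x / p)).card ≤ ((SM y x).filter (fun N => p ∣ N)).card := by
    intro p hp
    rw [mem_win] at hp
    refine Finset.card_le_card_of_injOn (fun m => p * m) ?_ ?_
    · intro m hm
      rw [Finset.mem_coe, mem_SM] at hm
      rw [Finset.mem_coe, Finset.mem_filter, mem_SM]
      refine ⟨⟨⟨Nat.mul_pos hp.2.1.pos hm.1.1, ?_⟩, ?_⟩, Dvd.intro _ rfl⟩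
      · calc p * m ≤ p * (x / p) := Nat.mul_le_mul_left p hm.1.2
          _ ≤ x := Nat.mul_div_le x p
      · intro r hr hrd
        rcases (Nat.Prime.dvd_mul hr).mp hrd with h | h
        · exact le_trans (Nat.le_of_dvd hp.2.1.pos h) hp.1.2
        · exact hm.2 r hr h
    · intro a _ b _ hab
      exact Nat.eq_of_mul_eq_mul_left hp.2.1.pos hab
  refine le_trans (Finset.sum_le_sum h1) ?_
  have h2 : ∑ p ∈ win y, ((SM y x).filter (fun N => p ∣ N)).card =
      ∑ N ∈ SM y x, ((win y).filter (fun p => p ∣ N)).card :=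
    Finset.sum_card_bipartiteAbove_eq_sum_card_bipartiteBelow (fun p N => p ∣ N)
  rw [h2]
  have h3 : ∀ N ∈ SM y x, ((win y).filter (fun p => p ∣ N)).card ≤ j + 3 := by
    intro N hN
    rw [mem_SM] at hN
    set s := (win y).filter (fun p => p ∣ N) with hs
    have hdvd : ∏ p ∈ s, p ∣ N := by
      apply Finset.prod_primes_dvd
      · intro p hp
        rw [hs, Finset.mem_filter, mem_win] at hp
        exact hp.1.2.1.prime
      · intro p hp
        rw [hs, Finset.mem_filter] at hp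
        exact hp.2
    have hle : ∏ p ∈ s, p ≤ x := le_trans (Nat.le_of_dvd hN.1.1 hdvd) hN.1.2
    have hpow : y ^ s.card ≤ ∏ p ∈ s, p ^ 2 := by
      rw [← Finset.prod_const]
      apply Finset.prod_le_prod' 
      intro p hp
      rw [hs, Finset.mem_filter, mem_win] at hp
      exact hp.1.2.2.le
    rw [Finset.prod_pow] at hpow
    have h4 : y ^ s.card ≤ y ^ (j + 3) :=
      le_trans hpow (le_trans (Nat.pow_le_pow_left hle 2) hx)
    exact (Nat.pow_le_pow_iff_right (by omega)).mp h4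
  calc ∑ N ∈ SM y x, ((win y).filter (fun p => p ∣ N)).card ≤ ∑ _N ∈ SM y x, (j + 3) :=
        Finset.sum_le_sum h3
    _ = (j + 3) * (SM y x).card := by rw [Finset.sum_const, smul_eq_mul, mul_comm]

theorem SM_card_of_le {y x : ℕ} (h : x ≤ y) : (SM y x).card = x := by
  classical
  have : SM y x = Finset.Icc 1 x := by
    unfold SM
    apply Finset.filter_true_of_mem
    intro m hm p _ hpd
    rw [Finset.mem_Icc] at hm
    exact le_trans (Nat.le_of_dvd hm.1 hpd) (le_trans hm.2 h)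
  rw [this, Nat.card_Icc]
  omega

/-- **Positive proportion of smooth numbers.** -/
theorem smooth_lower (j : ℕ) : ∃ c : ℝ, 0 < c ∧ c ≤ 1 ∧ ∃ y0 : ℕ, ∀ y ≥ y0, ∀ x : ℕ,
    x ^ 2 ≤ y ^ (j + 2) → c * x ≤ (SM y x).card := by
  induction j with
  | zero =>
    refine ⟨1, one_pos, le_refl _, 0, fun y _ x hx => ?_⟩
    have hxy : x ≤ y := by
      rw [zero_add] at hx
      exact (Nat.pow_le_pow_iff_left (by norm_num)).mp hx
    rw [SM_card_of_le hxy, one_mul]
  | succ j ih =>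
    obtain ⟨c, hc, hc1, y0, ih⟩ := ih
    refine ⟨c / (36 * (j + 3)), by positivity, ?_, max y0 (4 ^ 20), fun y hy x hx => ?_⟩
    · rw [div_le_one (by positivity)]
      have : (0 : ℝ) ≤ j := Nat.cast_nonneg j
      linarith
    have hy0 : y0 ≤ y := le_trans (le_max_left _ _) hy
    have hy20 : 4 ^ 20 ≤ y := le_trans (le_max_right _ _) hy
    have hc' : c / (36 * ((j : ℝ) + 3)) ≤ 1 := by
      rw [div_le_one (by positivity)]
      have : (0 : ℝ) ≤ j := Nat.cast_nonneg j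
      linarith
    rcases le_total x y with hxy | hxy
    · rw [SM_card_of_le hxy]
      have : (0 : ℝ) ≤ x := Nat.cast_nonneg x
      nlinarith
    · have h2y : 2 ≤ y := le_trans (by norm_num) hy20
      have hstep := smooth_step y x j h2y hx
      have hstepR : (∑ p ∈ win y, ((SM y (x / p)).card : ℝ)) ≤ ((j : ℝ) + 3) * (SM y x).card := by
        exact_mod_cast hstep
      have hlow : ∀ p ∈ win y, c * x / 2 * (1 / (p : ℝ)) ≤ ((SM y (x / p)).card : ℝ) := by
        intro p hp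
        rw [mem_win] at hp
        have hp0 : (0 : ℝ) < p := by exact_mod_cast hp.2.1.pos
        have hcond : (x / p) ^ 2 ≤ y ^ (j + 2) := by
          have h1 : (x / p) ^ 2 * y ≤ y ^ (j + 2) * y := by
            calc (x / p) ^ 2 * y ≤ (x / p) ^ 2 * p ^ 2 := Nat.mul_le_mul_left _ hp.2.2.le
              _ = ((x / p) * p) ^ 2 := by rw [mul_pow]
              _ ≤ x ^ 2 := Nat.pow_le_pow_left (Nat.div_mul_le_self x p) 2
              _ ≤ y ^ (j + 1 + 2) := hx
              _ = y ^ (j + 2) * y := by rw [← pow_succ]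
          exact Nat.le_of_mul_le_mul_right h1 (by omega)
        have h2 := ih y hy0 (x / p) hcond
        refine le_trans ?_ h2
        have h3 : (x : ℝ) / (2 * p) ≤ ((x / p : ℕ) : ℝ) := by
          have hpx : p ≤ x := le_trans hp.1.2 hxy
          have h4 : x < 2 * p * (x / p) + 1 := by
            have h5 := Nat.lt_mul_div_succ x hp.2.1.pos
            have h6 : 1 ≤ x / p := Nat.div_pos hpx hp.2.1.pos
            nlinarith
          rw [div_le_iff₀ (by positivity)]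
          have : (x : ℝ) ≤ 2 * p * ((x / p : ℕ) : ℝ) := by exact_mod_cast Nat.lt_succ_iff.mp h4
          linarith
        calc c * x / 2 * (1 / (p : ℝ)) = c * ((x : ℝ) / (2 * p)) := by field_simp
          _ ≤ c * ((x / p : ℕ) : ℝ) := by gcongr
      have hsum := Finset.sum_le_sum hlow
      rw [← Finset.mul_sum] at hsum
      have hw := win_sum y hy20
      have hx0 : (0 : ℝ) ≤ x := Nat.cast_nonneg x
      have h7 : c * x / 2 * (1 / 18) ≤ ((j : ℝ) + 3) * (SM y x).card := by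
        calc c * x / 2 * (1 / 18) ≤ c * x / 2 * ∑ p ∈ win y, (1 / (p : ℝ)) := by
              apply mul_le_mul_of_nonneg_left hw (by positivity)
          _ ≤ _ := le_trans hsum hstepR
      have hj3 : (0 : ℝ) < (j : ℝ) + 3 := by positivity
      rw [div_mul_eq_mul_div, div_le_iff₀ (by positivity)]
      linarith

end Pool.Agent.H17HN
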