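import Mathlib
import Pool.Agent.H17HN.Smooth

set_option autoImplicit false

/-!
The common divisors of `2 ^ n - 1, 3 ^ n - 1, …, m ^ n - 1`.
-/

open Finset

namespace Pool.Agent.H17HN

/-- the greatest common divisor of `2 ^ n - 1, …, m ^ n - 1` -/
def gg (n m : ℕ) : ℕ := (Finset.Icc 2 m).gcd (fun i => i ^ n - 1)

theorem exists_prime_of_gg_ne_one {n m : ℕ} (hm : 2 ≤ m) (hn : 1 ≤ n) (h : gg n m ≠ 1) :
    ∃ q : ℕ, q.Prime ∧ m < q ∧ ∀ a : ℕ, 1 ≤ a → a ≤ m → ((a : ZMod q)) ^ n = 1 := by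
  obtain ⟨q, hq, hqd⟩ := Nat.exists_prime_and_dvd h
  have hall : ∀ a : ℕ, 1 ≤ a → a ≤ m → ((a : ZMod q)) ^ n = 1 := by
    intro a ha ham
    rcases Nat.lt_or_ge a 2 with h2 | h2
    · have : a = 1 := by omega
      rw [this]; simp
    · have hd : q ∣ a ^ n - 1 :=
        dvd_trans hqd (Finset.gcd_dvd (Finset.mem_Icc.mpr ⟨h2, ham⟩))
      have h1 : 1 ≤ a ^ n := Nat.one_le_pow _ _ (by omega)
      have h3 : ((a ^ n - 1 : ℕ) : ZMod q) = 0 := (ZMod.natCast_eq_zero_iff _ _).mpr hd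
      rw [Nat.cast_sub h1] at h3
      push_cast at h3
      exact sub_eq_zero.mp h3
  refine ⟨q, hq, ?_, hall⟩
  by_contra hle
  have h4 := hall q hq.one_lt.le (not_lt.mp hle)
  have := Fact.mk hq
  rw [ZMod.natCast_self, zero_pow (by omega)] at h4
  exact zero_ne_one h4

theorem smooth_root {q n A : ℕ} (hall : ∀ a : ℕ, 1 ≤ a → a ≤ A → ((a : ZMod q)) ^ n = 1) :
    ∀ m : ℕ, 1 ≤ m → (∀ p : ℕ, p.Prime → p ∣ m → p ≤ A) → ((m : ZMod q)) ^ n = 1 := by
  intro m
  induction m using Nat.strong_induction_on with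
  | _ m ih =>
    intro hm hsm
    rcases Nat.eq_or_lt_of_le hm with h1 | h1
    · rw [← h1]; simp
    · have hne : m ≠ 1 := by omega
      have hp := Nat.minFac_prime hne
      obtain ⟨k, hk⟩ := Nat.minFac_dvd m
      have hk0 : 1 ≤ k := by
        rcases Nat.eq_zero_or_pos k with h | h
        · rw [h, mul_zero] at hk; omega
        · exact h
      have hkm : k < m := by
        have := hp.two_le
        calc k < 2 * k := by omega
          _ ≤ m.minFac * k := Nat.mul_le_mul_right k this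
          _ = m := hk.symm
      have hkr := ih k hkm hk0 (fun p hpp hpk => hsm p hpp (by
        rw [hk]; exact Dvd.dvd.mul_left hpk _))
      have hpr := hall m.minFac hp.pos (hsm _ hp (Nat.minFac_dvd m))
      rw [hk]
      push_cast
      rw [mul_pow, hpr, hkr, one_mul]

theorem SM_card_le {q n A x : ℕ} (hq : q.Prime) (hn : 1 ≤ n) (hx : x < q)
    (hall : ∀ a : ℕ, 1 ≤ a → a ≤ A → ((a : ZMod q)) ^ n = 1) : (SM A x).card ≤ n := by
  have := Fact.mk hq
  have h1 : (SM A x).card ≤ (Polynomial.nthRootsFinset n (1 : ZMod q)).card := by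
    refine Finset.card_le_card_of_injOn (fun m => ((m : ℕ) : ZMod q)) ?_ ?_
    · intro m hm
      rw [Finset.mem_coe, mem_SM] at hm
      rw [Finset.mem_coe, Polynomial.mem_nthRootsFinset hn]
      exact smooth_root hall m hm.1.1 hm.2
    · intro a ha b hb hab
      rw [Finset.mem_coe, mem_SM] at ha hb
      have h := (ZMod.natCast_eq_natCast_iff' a b q).mp hab
      rwa [Nat.mod_eq_of_lt (lt_of_le_of_lt ha.1.2 hx),
        Nat.mod_eq_of_lt (lt_of_le_of_lt hb.1.2 hx)] at h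
  refine le_trans h1 ?_
  rw [Polynomial.nthRootsFinset_def]
  exact le_trans (Multiset.toFinset_card_le _) (Polynomial.card_nthRoots n 1)

/-- The least integer outside a proper subgroup of the residues modulo `q` is at most about
`√ q`. -/
theorem sq_lt_of_proper {q n P : ℕ} (hq : q.Prime)
    (hall : ∀ a : ℕ, 1 ≤ a → a ≤ P → ((a : ZMod q)) ^ n = 1)
    (hex : ∃ x : ZMod q, x ≠ 0 ∧ x ^ n ≠ 1) : P ^ 2 < q := by
  have := Fact.mk hq
  classical
  have hex2 : ∃ m : ℕ, 1 ≤ m ∧ m < q ∧ ((m : ZMod q)) ^ n ≠ 1 := by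
    obtain ⟨x, hx0, hx⟩ := hex
    refine ⟨x.val, ?_, ZMod.val_lt x, ?_⟩
    · rcases Nat.eq_zero_or_pos x.val with h | h
      · exact absurd ((ZMod.val_eq_zero x).mp h) hx0
      · exact h
    · rwa [ZMod.natCast_zmod_val]
  set m := Nat.find hex2 with hm
  have hspec := Nat.find_spec hex2
  rw [← hm] at hspec
  have hmin : ∀ a : ℕ, 1 ≤ a → a < m → ((a : ZMod q)) ^ n = 1 := by
    intro a ha ham
    by_contra hne
    exact Nat.find_min hex2 ham ⟨ha, lt_trans ham hspec.2.1, hne⟩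
  have hPm : P < m := by
    by_contra hle
    exact hspec.2.2 (hall m hspec.1 (not_lt.mp hle))
  have hm1 : 1 < m := by
    rcases Nat.eq_or_lt_of_le hspec.1 with h | h
    · exfalso
      apply hspec.2.2
      rw [← h]; simp
    · exact h
  set t := q / m + 1 with ht
  have hmq : q < t * m := by
    have := Nat.lt_mul_div_succ q (show 0 < m by omega)
    rw [ht]
    calc q < m * (q / m + 1) := this
      _ = _ := mul_comm _ _
  have hmq2 : t * m ≤ q + m := by
    rw [ht, add_mul, one_mul]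
    exact Nat.add_le_add_right (Nat.div_mul_le_self q m) m
  have hne : t * m ≠ q + m := by
    intro h
    rw [ht, add_mul, one_mul] at h
    have h2 : q / m * m = q := by omega
    have h3 : m ∣ q := Dvd.intro_left _ h2
    rcases (Nat.dvd_prime hq).mp h3 with h4 | h4
    · omega
    · have := hspec.2.1; omega
  have hr := hmin (t * m - q) (by omega) (by omega)
  have hcast : (((t * m - q : ℕ)) : ZMod q) = (t : ZMod q) * (m : ZMod q) := by
    rw [Nat.cast_sub hmq.le, ZMod.natCast_self, sub_zero]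
    push_cast; rfl
  rw [hcast, mul_pow] at hr
  have htm : m ≤ t := by
    by_contra hlt
    have h5 := hmin t (Nat.succ_pos _) (not_le.mp hlt)
    rw [h5, one_mul] at hr
    exact hspec.2.2 hr
  have h6 : m - 1 ≤ q / m := Nat.sub_le_iff_le_add.mpr htm
  have h7 : (m - 1) * m ≤ q := le_trans (Nat.mul_le_mul_right m h6) (Nat.div_mul_le_self q m)
  have h8 : P * (P + 1) ≤ (m - 1) * m := Nat.mul_le_mul (by omega) (by omega)
  rcases Nat.eq_zero_or_pos P with h0 | h0
  · rw [h0]; have := hq.pos; simpa using this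
  · nlinarith

/-- `P n`: the largest prime `p` with `p - 1` dividing `n` -/
noncomputable def PP (n : ℕ) : ℕ := sSup {p : ℕ | p.Prime ∧ (p - 1) ∣ n}

theorem PP_bdd {n : ℕ} (hn : 1 ≤ n) : BddAbove {p : ℕ | p.Prime ∧ (p - 1) ∣ n} := by
  refine ⟨n + 1, fun p hp => ?_⟩
  have := Nat.le_of_dvd hn hp.2
  omega

theorem PP_mem {n : ℕ} (hn : 1 ≤ n) : (PP n).Prime ∧ (PP n - 1) ∣ n := by
  have hne : {p : ℕ | p.Prime ∧ (p - 1) ∣ n}.Nonempty := ⟨2, Nat.prime_two, one_dvd n⟩
  exact Nat.sSup_mem hne (PP_bdd hn)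

theorem le_PP {n p : ℕ} (hn : 1 ≤ n) (hp : p.Prime) (hd : (p - 1) ∣ n) : p ≤ PP n :=
  le_csSup (PP_bdd hn) ⟨hp, hd⟩

/-- There is a constant `C` with `gcd (2 ^ n - 1, …, m ^ n - 1) = 1` whenever
`m ≥ P n` and `m > C √ n`. -/
theorem gg_eq_one : ∃ C : ℝ, 3 ≤ C ∧ ∀ n : ℕ, 1 ≤ n → ∀ m : ℕ, PP n ≤ m → C * √(n : ℝ) < m →
    gg n m = 1 := by
  obtain ⟨c, hc, _, y0, hy0⟩ := smooth_lower 2
  refine ⟨max (max 3 (y0 : ℝ)) (1 / c), le_trans (le_max_left _ _) (le_max_left _ _),
    fun n hn m hPm hm => ?_⟩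
  set C := max (max 3 (y0 : ℝ)) (1 / c) with hC
  have hC3 : 3 ≤ C := le_trans (le_max_left _ _) (le_max_left _ _)
  have hCy : (y0 : ℝ) ≤ C := le_trans (le_max_right _ _) (le_max_left _ _)
  have hCc : 1 / c ≤ C := le_max_right _ _
  have hs1 : 1 ≤ √(n : ℝ) := by
    rw [Real.one_le_sqrt]; exact_mod_cast hn
  have hCm : C < m := lt_of_le_of_lt (by nlinarith) hm
  have hm2 : 2 ≤ m := by
    have : (3 : ℝ) < m := lt_of_le_of_lt hC3 hCm
    have : 3 < m := by exact_mod_cast this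
    omega
  by_contra hne
  obtain ⟨q, hq, hmq, hall⟩ := exists_prime_of_gg_ne_one hm2 hn hne
  have := Fact.mk hq
  have hnd : ¬ (q - 1) ∣ n := fun hd => by
    have := le_PP hn hq hd
    omega
  have hex : ∃ x : ZMod q, x ≠ 0 ∧ x ^ n ≠ 1 := by
    by_contra hcon
    apply hnd
    have hunits : ∀ x : (ZMod q)ˣ, x ^ n = 1 := by
      intro x
      by_contra hx
      apply hcon
      refine ⟨x, x.ne_zero, ?_⟩
      intro hx2
      apply hx
      ext
      push_cast
      exact hx2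
    have := (FiniteField.forall_pow_eq_one_iff (ZMod q) n).mp hunits
    rwa [ZMod.card] at this
  have hlt := sq_lt_of_proper hq hall hex
  have hcard := SM_card_le (x := m ^ 2) hq hn hlt hall
  have hlow := hy0 m (by
    have : (y0 : ℝ) ≤ m := le_trans hCy hCm.le
    exact_mod_cast this) (m ^ 2) (by rw [← pow_mul])
  have h1 : c * (m : ℝ) ^ 2 ≤ n := by
    have h2 : ((SM m (m ^ 2)).card : ℝ) ≤ n := by exact_mod_cast hcard
    push_cast at hlow
    linarith
  have hm0 : 0 ≤ C * √(n : ℝ) := by positivity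
  have h3 : (C * √(n : ℝ)) ^ 2 < (m : ℝ) ^ 2 := pow_lt_pow_left₀ hm hm0 (by norm_num)
  rw [mul_pow, Real.sq_sqrt (Nat.cast_nonneg n)] at h3
  have hn0 : (0 : ℝ) < n := by exact_mod_cast hn
  have h4 : 1 ≤ c * C ^ 2 := by
    have h5 : 1 ≤ c * C := by
      rw [div_le_iff₀ hc] at hCc
      linarith
    nlinarith
  have h6 : c * (C ^ 2 * n) < c * (m : ℝ) ^ 2 := by
    apply mul_lt_mul_of_pos_left h3 hc
  nlinarith

/-- `h n`: the least `m ≥ 3` with `gcd (2 ^ n - 1, …, m ^ n - 1) = 1` -/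
noncomputable def hh (n : ℕ) : ℕ := sInf {m : ℕ | 3 ≤ m ∧ gg n m = 1}

theorem hh_eq_PP {n : ℕ} (hn : 1 ≤ n) (h3 : 3 ≤ PP n) (h : gg n (PP n) = 1) : hh n = PP n := by
  apply le_antisymm
  · exact Nat.sInf_le ⟨h3, h⟩
  · have hne : {m : ℕ | 3 ≤ m ∧ gg n m = 1}.Nonempty := ⟨PP n, h3, h⟩
    have hmem := Nat.sInf_mem hne
    unfold hh
    set m := sInf {m : ℕ | 3 ≤ m ∧ gg n m = 1} with hm
    by_contra hlt
    rw [not_le] at hlt
    obtain ⟨hp, hd⟩ := PP_mem hn
    have := Fact.mk hp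
    have hdvd : PP n ∣ gg n m := by
      unfold gg
      rw [Finset.dvd_gcd_iff]
      intro i hi
      rw [Finset.mem_Icc] at hi
      obtain ⟨k, hk⟩ := hd
      have hi0 : ((i : ℕ) : ZMod (PP n)) ≠ 0 := by
        intro h0
        rw [ZMod.natCast_eq_zero_iff] at h0
        have := Nat.le_of_dvd (by omega) h0
        omega
      have h0 : ((i : ℕ) : ZMod (PP n)) ^ ((PP n - 1) * k) = 1 := by
        rw [pow_mul, ZMod.pow_card_sub_one_eq_one hi0, one_pow]
      have h1 : ((i : ℕ) : ZMod (PP n)) ^ n = 1 :=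
        (congrArg (fun t => ((i : ℕ) : ZMod (PP n)) ^ t) hk).trans h0
      rw [← ZMod.natCast_eq_zero_iff, Nat.cast_sub (Nat.one_le_pow _ _ (by omega))]
      push_cast
      rw [h1, sub_self]
    rw [hmem.2] at hdvd
    exact hp.one_lt.ne' (Nat.dvd_one.mp hdvd)

/-- For every `j` there are arbitrarily large primes `l` such that
`gcd (2 ^ l - 1, …, A ^ l - 1) = 1` for some `A` with `A ^ j ≤ l`. -/
theorem gg_one_seq (j : ℕ) (hj : 1 ≤ j) (N : ℕ) :
    ∃ l : ℕ, N < l ∧ l.Prime ∧ ∃ A : ℕ, 2 ≤ A ∧ A ^ j ≤ l ∧ gg l A = 1 := by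
  obtain ⟨c, hc, _, y0, hy0⟩ := smooth_lower (2 * j - 1)
  obtain ⟨K, hK⟩ := exists_nat_gt (1 / c)
  have hK0 : 1 ≤ K := by
    have : (0 : ℝ) < K := lt_trans (by positivity) hK
    exact_mod_cast this
  set B := max (max y0 2) (K ^ 2 * 4 ^ j) with hB
  obtain ⟨l, hl, hlN, hlmod⟩ := Nat.exists_prime_gt_modEq_one (k := (K + 1).factorial)
    (max N ((B + 1) ^ j)) (Nat.factorial_ne_zero _)
  have hlN1 : N < l := lt_of_le_of_lt (le_max_left _ _) hlN
  have hlB : (B + 1) ^ j < l := lt_of_le_of_lt (le_max_right _ _) hlN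
  -- choose `A` with `A ^ j ≤ l < (A + 1) ^ j`
  have hexA : ∃ A : ℕ, A ^ j ≤ l ∧ l < (A + 1) ^ j := by
    classical
    set A := Nat.findGreatest (fun a => a ^ j ≤ l) l with hA
    have h0 : (0 : ℕ) ^ j ≤ l := by rw [zero_pow (by omega)]; exact Nat.zero_le _
    have h1 : A ^ j ≤ l := Nat.findGreatest_spec (P := fun a => a ^ j ≤ l) (Nat.zero_le l) h0
    refine ⟨A, h1, ?_⟩
    by_contra hle
    rw [not_lt] at hle
    have hAl : A + 1 ≤ l := by
      calc A + 1 = (A + 1) ^ 1 := (pow_one _).symm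
        _ ≤ (A + 1) ^ j := Nat.pow_le_pow_right (by omega) hj
        _ ≤ l := hle
    exact Nat.findGreatest_is_greatest (P := fun a => a ^ j ≤ l) (Nat.lt_succ_self A) hAl hle
  obtain ⟨A, hA1, hA2⟩ := hexA
  have hBA : B ≤ A := by
    have : (B + 1) ^ j < (A + 1) ^ j := lt_trans hlB hA2
    have := lt_of_pow_lt_pow_left₀ j (Nat.zero_le _) this
    omega
  have hAy : y0 ≤ A := le_trans (le_trans (le_max_left _ _) (le_max_left _ _)) hBA
  have hA2' : 2 ≤ A := le_trans (le_trans (le_max_right _ _) (le_max_left _ _)) hBA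
  have hAK : K ^ 2 * 4 ^ j ≤ A := le_trans (le_max_right _ _) hBA
  refine ⟨l, hlN1, hl, A, hA2', hA1, ?_⟩
  by_contra hne
  obtain ⟨q, hq, hAq, hall⟩ := exists_prime_of_gg_ne_one hA2' hl.one_lt.le hne
  have := Fact.mk hq
  -- `q = k l + 1` with `k > K`
  have h2 := hall 2 (by norm_num) hA2'
  have hord : orderOf ((2 : ℕ) : ZMod q) = l := by
    have hd := orderOf_dvd_of_pow_eq_one h2
    rcases (Nat.dvd_prime hl).mp hd with h | h
    · exfalso
      rw [orderOf_eq_one_iff] at h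
      have h3 : ((1 : ℕ) : ZMod q) = 0 := by
        have : ((2 : ℕ) : ZMod q) = ((1 : ℕ) : ZMod q) + 1 := by norm_num
        rw [this] at h
        push_cast at h ⊢
        linear_combination h
      rw [ZMod.natCast_eq_zero_iff] at h3
      exact hq.one_lt.ne' (Nat.dvd_one.mp h3)
    · exact h
  have hlq : l ∣ q - 1 := by
    rw [← hord]
    apply orderOf_dvd_of_pow_eq_one
    apply ZMod.pow_card_sub_one_eq_one
    intro h0
    rw [ZMod.natCast_eq_zero_iff] at h0
    have := Nat.le_of_dvd (by norm_num) h0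
    omega
  obtain ⟨k, hk⟩ := hlq
  have hq1 : q = l * k + 1 := by
    have := hq.one_lt
    omega
  have hkK : K < k := by
    by_contra hle
    rw [not_lt] at hle
    have hk0 : 1 ≤ k := by
      rcases Nat.eq_zero_or_pos k with h | h
      · rw [h] at hq1
        have := hq.one_lt
        omega
      · exact h
    have hdvd : (k + 1) ∣ (K + 1).factorial := Nat.dvd_factorial (by omega) (by omega)
    have hmod : l ≡ 1 [MOD (k + 1)] := hlmod.of_dvd hdvd
    have h5 : q ≡ 0 [MOD (k + 1)] := by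
      rw [hq1]
      have h6 : l * k + 1 ≡ 1 * k + 1 [MOD (k + 1)] := (hmod.mul_right k).add_right 1
      refine h6.trans ?_
      rw [one_mul]
      exact (Nat.modEq_zero_iff_dvd.mpr (dvd_refl _))
    have h7 : (k + 1) ∣ q := Nat.modEq_zero_iff_dvd.mp h5
    rcases (Nat.dvd_prime hq).mp h7 with h8 | h8
    · omega
    · rw [hq1] at h8
      have h9 : k = l * k := by omega
      have h10 := hl.two_le
      nlinarith
  have hKl : K * l < q := by
    rw [hq1]
    calc K * l ≤ k * l := Nat.mul_le_mul_right l hkK.le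
      _ = l * k := mul_comm _ _
      _ < l * k + 1 := Nat.lt_succ_self _
  have hcard := SM_card_le (x := K * l) hq hl.one_lt.le hKl hall
  have hcond : (K * l) ^ 2 ≤ A ^ (2 * j - 1 + 2) := by
    have h11 : l ≤ 2 ^ j * A ^ j := by
      calc l ≤ (A + 1) ^ j := hA2.le
        _ ≤ (2 * A) ^ j := Nat.pow_le_pow_left (by omega) j
        _ = 2 ^ j * A ^ j := mul_pow _ _ _
    calc (K * l) ^ 2 ≤ (K * (2 ^ j * A ^ j)) ^ 2 := Nat.pow_le_pow_left (Nat.mul_le_mul_left K h11) 2
      _ = (K ^ 2 * 4 ^ j) * A ^ (2 * j) := by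
        rw [mul_pow, mul_pow, ← pow_mul, ← pow_mul, show (4 : ℕ) = 2 ^ 2 by norm_num, ← pow_mul,
          mul_comm j 2]
        ring
      _ ≤ A * A ^ (2 * j) := Nat.mul_le_mul_right _ hAK
      _ = A ^ (2 * j - 1 + 2) := by
        rw [← pow_succ']
        congr 1
        omega
  have hlow := hy0 A hAy (K * l) hcond
  have hcardR : ((SM A (K * l)).card : ℝ) ≤ l := by exact_mod_cast hcard
  have hl0 : (0 : ℝ) < l := by exact_mod_cast hl.pos
  have hKc : 1 < c * K := by
    rw [div_lt_iff₀ hc] at hK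
    linarith
  push_cast at hlow
  nlinarith

end Pool.Agent.H17HN
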