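import Mathlib
import Pool.Prelude.Def_F_cef2bd1b
import Pool.Agent.H17HN.Gcd

set_option autoImplicit false

/-!
Cube tilings: upper bound `(2 A) ^ n` for the cutoff when `gcd (2 ^ n - 1, …, A ^ n - 1) = 1`.
-/

open Finset N0a8789b9

namespace Pool.Agent.H17HN

/-- admissibility with a general index type -/
theorem admissible_of_fintype {n : ℕ} (ι : Type) [Fintype ι] (T : ι → Cube n)
    (h1 : ∀ i, (T i).InsideUnit) (h2 : ∀ x, InUnit x → ∃! i, (T i).Mem x) :
    Admissible n (Fintype.card ι) := by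
  refine ⟨fun i => T ((Fintype.equivFin ι).symm i), fun i => h1 _, fun x hx => ?_⟩
  obtain ⟨i, hi, hu⟩ := h2 x hx
  refine ⟨Fintype.equivFin ι i, ?_, ?_⟩
  · simpa using hi
  · intro j hj
    have := hu _ hj
    rw [← this]
    simp

theorem admissible_one (n : ℕ) : Admissible n 1 := by
  refine ⟨fun _ => ⟨fun _ => 0, 1⟩, fun _ => ⟨one_pos, fun _ => by simp⟩, fun x hx => ?_⟩
  refine ⟨0, ?_, fun j _ => Subsingleton.elim _ _⟩
  intro j
  have := hx j
  simpa using this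

/-- the subcube of `Q` with index `v` in the subdivision in `a ^ n` equal parts -/
noncomputable def sub {n : ℕ} (Q : Cube n) (a : ℕ) (v : Fin n → Fin a) : Cube n :=
  ⟨fun j => Q.lower j + (v j : ℕ) * (Q.side / a), Q.side / a⟩

theorem sub_inside {n : ℕ} (Q : Cube n) (hQ : Q.InsideUnit) (a : ℕ) (ha : 1 ≤ a)
    (v : Fin n → Fin a) : (sub Q a v).InsideUnit := by
  have ha0 : (0 : ℝ) < a := by exact_mod_cast ha
  have hs := hQ.1
  refine ⟨div_pos hs ha0, fun j => ⟨?_, ?_⟩⟩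
  · have := (hQ.2 j).1
    have h2 : (0 : ℝ) ≤ (v j : ℕ) * (Q.side / a) := by positivity
    simp only [sub]
    linarith
  · have h1 := (hQ.2 j).2
    have h2 : ((v j : ℕ) : ℝ) + 1 ≤ a := by exact_mod_cast (v j).2
    have h3 : (((v j : ℕ) : ℝ) + 1) * (Q.side / a) ≤ a * (Q.side / a) :=
      mul_le_mul_of_nonneg_right h2 (by positivity)
    have h4 : (a : ℝ) * (Q.side / a) = Q.side := by field_simp
    simp only [sub]
    nlinarith

theorem sub_mem_iff {n : ℕ} (Q : Cube n) (hQ : Q.InsideUnit) (a : ℕ) (ha : 1 ≤ a)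
    (v : Fin n → Fin a) (x : Fin n → ℝ) :
    (sub Q a v).Mem x ↔ ∀ j, ((v j : ℕ) : ℝ) ≤ (x j - Q.lower j) / (Q.side / a) ∧
      (x j - Q.lower j) / (Q.side / a) < ((v j : ℕ) : ℝ) + 1 := by
  have ha0 : (0 : ℝ) < a := by exact_mod_cast ha
  have hs : 0 < Q.side / a := div_pos hQ.1 ha0
  unfold Cube.Mem sub
  simp only
  apply forall_congr'
  intro j
  rw [le_div_iff₀ hs, div_lt_iff₀ hs]
  constructor
  · rintro ⟨h1, h2⟩
    exact ⟨by linarith, by linarith⟩
  · rintro ⟨h1, h2⟩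
    exact ⟨by linarith, by linarith⟩

theorem mem_of_sub_mem {n : ℕ} (Q : Cube n) (hQ : Q.InsideUnit) (a : ℕ) (ha : 1 ≤ a)
    (v : Fin n → Fin a) (x : Fin n → ℝ) (h : (sub Q a v).Mem x) : Q.Mem x := by
  have ha0 : (0 : ℝ) < a := by exact_mod_cast ha
  have hs : 0 < Q.side / a := div_pos hQ.1 ha0
  have h4 : (a : ℝ) * (Q.side / a) = Q.side := by field_simp
  intro j
  have hj := h j
  simp only [sub] at hj
  have h2 : ((v j : ℕ) : ℝ) + 1 ≤ a := by exact_mod_cast (v j).2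
  have h3 : (((v j : ℕ) : ℝ) + 1) * (Q.side / a) ≤ a * (Q.side / a) :=
    mul_le_mul_of_nonneg_right h2 hs.le
  have h5 : (0 : ℝ) ≤ (v j : ℕ) * (Q.side / a) := by positivity
  constructor
  · linarith [hj.1]
  · nlinarith [hj.2]

theorem exists_sub_mem {n : ℕ} (Q : Cube n) (hQ : Q.InsideUnit) (a : ℕ) (ha : 1 ≤ a)
    (x : Fin n → ℝ) (h : Q.Mem x) : ∃ v : Fin n → Fin a, (sub Q a v).Mem x := by
  have ha0 : (0 : ℝ) < a := by exact_mod_cast ha
  have hs : 0 < Q.side / a := div_pos hQ.1 ha0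
  have h4 : (a : ℝ) * (Q.side / a) = Q.side := by field_simp
  have hlt : ∀ j, ⌊(x j - Q.lower j) / (Q.side / a)⌋₊ < a := by
    intro j
    have hj := h j
    rw [Nat.floor_lt (div_nonneg (by linarith [hj.1]) hs.le), div_lt_iff₀ hs, h4]
    linarith [hj.2]
  refine ⟨fun j => ⟨⌊(x j - Q.lower j) / (Q.side / a)⌋₊, hlt j⟩, ?_⟩
  rw [sub_mem_iff Q hQ a ha]
  intro j
  have hj := h j
  exact ⟨Nat.floor_le (div_nonneg (by linarith [hj.1]) hs.le), Nat.lt_floor_add_one _⟩

theorem sub_unique {n : ℕ} (Q : Cube n) (hQ : Q.InsideUnit) (a : ℕ) (ha : 1 ≤ a)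
    (x : Fin n → ℝ) (v w : Fin n → Fin a) (hv : (sub Q a v).Mem x) (hw : (sub Q a w).Mem x) :
    v = w := by
  rw [sub_mem_iff Q hQ a ha] at hv hw
  funext j
  apply Fin.ext
  have h1 : ((v j : ℕ) : ℝ) < (w j : ℕ) + 1 := lt_of_le_of_lt (hv j).1 (hw j).2
  have h2 : ((w j : ℕ) : ℝ) < (v j : ℕ) + 1 := lt_of_le_of_lt (hw j).1 (hv j).2
  have h3 : (v j : ℕ) < (w j : ℕ) + 1 := by exact_mod_cast h1
  have h4 : (w j : ℕ) < (v j : ℕ) + 1 := by exact_mod_cast h2
  omega

theorem admissible_subdivide {n k : ℕ} (a : ℕ) (ha : 1 ≤ a) (h : Admissible n (k + 1)) :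
    Admissible n (k + 1 + (a ^ n - 1)) := by
  obtain ⟨T, hT1, hT2⟩ := h
  have hcard : Fintype.card (Fin k ⊕ (Fin n → Fin a)) = k + 1 + (a ^ n - 1) := by
    rw [Fintype.card_sum, Fintype.card_fin, Fintype.card_fun, Fintype.card_fin, Fintype.card_fin]
    have : 1 ≤ a ^ n := Nat.one_le_pow _ _ ha
    omega
  rw [← hcard]
  set Q := T (Fin.last k) with hQdef
  have hQ : Q.InsideUnit := hT1 _
  refine admissible_of_fintype (Fin k ⊕ (Fin n → Fin a))
    (Sum.elim (fun i => T i.castSucc) (fun v => sub Q a v)) ?_ ?_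
  · rintro (i | v)
    · exact hT1 _
    · exact sub_inside Q hQ a ha v
  · intro x hx
    obtain ⟨i, hi, hu⟩ := hT2 x hx
    rcases Fin.eq_castSucc_or_eq_last i with ⟨i', rfl⟩ | rfl
    · refine ⟨Sum.inl i', hi, ?_⟩
      rintro (j | v) hj
      · have := hu j.castSucc hj
        rw [Fin.castSucc_inj] at this
        rw [this]
      · exfalso
        have h1 := hu (Fin.last k) (mem_of_sub_mem Q hQ a ha v x hj)
        exact absurd h1 (Fin.castSucc_lt_last i').ne'
    · obtain ⟨v, hv⟩ := exists_sub_mem Q hQ a ha x hi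
      refine ⟨Sum.inr v, hv, ?_⟩
      rintro (j | w) hj
      · exfalso
        have h1 := hu j.castSucc hj
        exact absurd h1 (Fin.castSucc_lt_last j).ne
      · have : w = v := sub_unique Q hQ a ha x w v hj hv
        rw [this]

/-- Every long list has a shorter one with the same sum modulo `m`. -/
theorem list_reduce {m : ℕ} (hm : 1 ≤ m) (L : List ℕ) (hL : m ≤ L.length) :
    ∃ L' : List ℕ, L'.length < L.length ∧ (∀ y ∈ L', y ∈ L) ∧ L'.sum ≡ L.sum [MOD m] := by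
  have : NeZero m := ⟨by omega⟩
  obtain ⟨i, j, hij, hsum⟩ := Fintype.exists_ne_map_eq_of_card_lt
    (fun i : Fin (m + 1) => (((L.take i).sum : ℕ) : ZMod m)) (by simp [ZMod.card])
  wlog hlt : (i : ℕ) < j generalizing i j
  · exact this j i (Ne.symm hij) hsum.symm (by
      have : (i : ℕ) ≠ j := fun h => hij (Fin.ext h)
      omega)
  have hj : (j : ℕ) ≤ L.length := by have := j.2; omega
  refine ⟨L.take i ++ L.drop j, ?_, ?_, ?_⟩
  · rw [List.length_append, List.length_take, List.length_drop]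
    omega
  · intro y hy
    rw [List.mem_append] at hy
    rcases hy with h | h
    · exact List.mem_of_mem_take h
    · exact List.mem_of_mem_drop h
  · have h1 : (L.take i).sum ≡ (L.take j).sum [MOD m] :=
      (ZMod.natCast_eq_natCast_iff _ _ _).mp hsum
    rw [List.sum_append]
    have h2 : L.sum = (L.take j).sum + (L.drop j).sum := by
      rw [← List.sum_append, List.take_append_drop]
    rw [h2]
    exact h1.add_right _

theorem frob_bound {S : Set ℕ} (hS : Nat.setGcd S = 1) {m M : ℕ} (hm : 1 ≤ m) (hmS : m ∈ S)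
    (hM : ∀ s ∈ S, s ≤ M) (N : ℕ) (hN : m * M ≤ N) : N ∈ AddSubmonoid.closure S := by
  classical
  obtain ⟨n0, hn0⟩ := Nat.exists_mem_closure_of_ge S
  have hex : ∃ ℓ : ℕ, ∃ L : List ℕ, L.length = ℓ ∧ (∀ y ∈ L, y ∈ S) ∧ L.sum ≡ N [MOD m] := by
    have hmem := hn0 (N + m * n0) (by nlinarith) (by rw [hS]; exact one_dvd _)
    obtain ⟨L, hL1, hL2⟩ := AddSubmonoid.exists_list_of_mem_closure hmem
    refine ⟨L.length, L, rfl, hL1, ?_⟩
    rw [hL2]
    unfold Nat.ModEq
    rw [Nat.add_mul_mod_self_left]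
  obtain ⟨L, hLlen, hL1, hL2⟩ := Nat.find_spec hex
  have hshort : L.length < m := by
    by_contra hge
    rw [not_lt] at hge
    obtain ⟨L', h1, h2, h3⟩ := list_reduce hm L hge
    exact Nat.find_min hex (by rw [← hLlen]; exact h1)
      ⟨L', rfl, fun y hy => hL1 y (h2 y hy), h3.trans hL2⟩
  have hsumle : L.sum ≤ L.length * M := by
    have := List.sum_le_card_nsmul L M (fun y hy => hM y (hL1 y hy))
    rwa [smul_eq_mul] at this
  have hle : L.sum ≤ N := by
    calc L.sum ≤ L.length * M := hsumle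
      _ ≤ m * M := Nat.mul_le_mul_right M hshort.le
      _ ≤ N := hN
  obtain ⟨j, hj⟩ := (Nat.modEq_iff_dvd' hle).mp hL2
  have hN' : N = L.sum + j * m := by
    rw [mul_comm j m, ← hj]; omega
  rw [hN']
  apply AddSubmonoid.add_mem
  · exact AddSubmonoid.list_sum_mem _ (fun y hy => AddSubmonoid.subset_closure (hL1 y hy))
  · have := AddSubmonoid.nsmul_mem (AddSubmonoid.closure S) (AddSubmonoid.subset_closure hmS) j
    rwa [smul_eq_mul] at this

/-- the generators `a ^ n - 1`, `2 ≤ a ≤ A` -/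
def gens (n A : ℕ) : Set ℕ := {s | ∃ a : ℕ, 2 ≤ a ∧ a ≤ A ∧ s = a ^ n - 1}

theorem admissible_of_mem {n A : ℕ} (g : ℕ) (hg : g ∈ AddSubmonoid.closure (gens n A)) :
    ∀ k : ℕ, Admissible n (k + 1) → Admissible n (k + 1 + g) := by
  induction hg using AddSubmonoid.closure_induction with
  | mem s hs =>
    obtain ⟨a, ha, _, rfl⟩ := hs
    intro k hk
    exact admissible_subdivide a (by omega) hk
  | zero => intro k hk; exact hk
  | add x y _ _ hx hy =>
    intro k hk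
    have h1 := hx k hk
    have h2 : k + 1 + x = (k + x) + 1 := by ring
    rw [h2] at h1
    have h3 := hy (k + x) h1
    have h4 : k + x + 1 + y = k + 1 + (x + y) := by ring
    rwa [h4] at h3

theorem cutoff_le {n A c : ℕ} (hn : 1 ≤ n) (hA : 2 ≤ A) (hg : gg n A = 1) (hc : IsCutoff n c) :
    c ≤ (2 * A) ^ n := by
  have hgcd : Nat.setGcd (gens n A) = 1 := by
    apply Nat.dvd_one.mp
    rw [← hg]
    unfold gg
    rw [Finset.dvd_gcd_iff]
    intro a ha
    rw [Finset.mem_Icc] at ha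
    exact Nat.setGcd_dvd_of_mem ⟨a, ha.1, ha.2, rfl⟩
  have h2n : 2 ≤ 2 ^ n := by
    calc 2 = 2 ^ 1 := by norm_num
      _ ≤ 2 ^ n := Nat.pow_le_pow_right (by norm_num) hn
  have hAn : 1 ≤ A ^ n := Nat.one_le_pow _ _ (by omega)
  have hmem : ∀ N, (2 ^ n - 1) * (A ^ n - 1) ≤ N → N ∈ AddSubmonoid.closure (gens n A) := by
    intro N hN
    refine frob_bound hgcd (m := 2 ^ n - 1) (M := A ^ n - 1) (by omega) ⟨2, le_refl _, hA, rfl⟩ ?_ N hN
    rintro s ⟨a, _, haA, rfl⟩
    exact Nat.sub_le_sub_right (Nat.pow_le_pow_left haA n) 1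
  by_contra hlt
  rw [not_le] at hlt
  rcases hc.2 with h0 | hna
  · omega
  · apply hna
    have hb : (2 ^ n - 1) * (A ^ n - 1) ≤ c - 1 - 1 := by
      have h1 : (2 ^ n - 1) * (A ^ n - 1) + 1 ≤ (2 * A) ^ n := by
        rw [mul_pow]
        obtain ⟨u, hu⟩ : ∃ u, 2 ^ n = u + 1 := ⟨2 ^ n - 1, by omega⟩
        obtain ⟨w, hw⟩ : ∃ w, A ^ n = w + 1 := ⟨A ^ n - 1, by omega⟩
        rw [hu, hw]
        simp only [Nat.add_sub_cancel]
        nlinarith
      omega
    have h1 := admissible_of_mem (c - 1 - 1) (hmem _ hb) 0 (by simpa using admissible_one n)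
    have hpos : 1 ≤ (2 * A) ^ n := Nat.one_le_pow _ _ (by omega)
    have h2 : 0 + 1 + (c - 1 - 1) = c - 1 := by omega
    rwa [h2] at h1

theorem cutoff_pos {n c : ℕ} (hc : IsCutoff n c) : 1 ≤ c := by
  by_contra h
  have h0 : c = 0 := by omega
  obtain ⟨T, _, h2⟩ := hc.1 0 (by omega)
  obtain ⟨i, _⟩ := h2 (fun _ => 0) (fun _ => ⟨le_refl _, one_pos⟩)
  exact i.elim0

end Pool.Agent.H17HN
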